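import Mathlib
import Pool.Agent.Helper82.IW.Goals

/-! Packet INT of project IW (integration over the unit square). -/

open Complex MeasureTheory Set Filter Topology
open scoped ContDiff ComplexConjugate

namespace Pool.Agent.Helper85.IW

open Pool.Agent.Helper82.IW

theorem Q_eq : Q = Complex.measurableEquivRealProd ⁻¹' (Icc (0 : ℝ) 1 ×ˢ Icc (0 : ℝ) 1) := by
  ext z
  simp only [Q, Complex.mem_reProdIm, mem_preimage, mem_prod, Complex.measurableEquivRealProd_apply]

theorem Qint_prod {E : Type*} [NormedAddCommGroup E] [NormedSpace ℝ E] (F : ℂ → E) :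
    ∫ z in Q, F z = ∫ q in Icc (0 : ℝ) 1 ×ˢ Icc (0 : ℝ) 1, F ⟨q.1, q.2⟩ := by
  rw [Q_eq]
  have h := Complex.volume_preserving_equiv_real_prod.setIntegral_preimage_emb
    Complex.measurableEquivRealProd.measurableEmbedding
    (fun q : ℝ × ℝ => F ⟨q.1, q.2⟩) (Icc (0 : ℝ) 1 ×ˢ Icc (0 : ℝ) 1)
  rw [← h]
  rfl

theorem cont_mk : Continuous (fun q : ℝ × ℝ => (⟨q.1, q.2⟩ : ℂ)) := by
  have : (fun q : ℝ × ℝ => (⟨q.1, q.2⟩ : ℂ)) = Complex.equivRealProdCLM.symm := by
    funext q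
    rfl
  rw [this]
  exact Complex.equivRealProdCLM.symm.continuous

theorem Qint_xy {E : Type*} [NormedAddCommGroup E] [NormedSpace ℝ E] [CompleteSpace E]
    (F : ℂ → E) (hF : Continuous F) :
    ∫ z in Q, F z = ∫ x in (0 : ℝ)..1, ∫ y in (0 : ℝ)..1, F ⟨x, y⟩ := by
  rw [Qint_prod]
  have hc : Continuous (fun q : ℝ × ℝ => F ⟨q.1, q.2⟩) := hF.comp cont_mk
  have hi : IntegrableOn (fun q : ℝ × ℝ => F ⟨q.1, q.2⟩) (Icc (0 : ℝ) 1 ×ˢ Icc (0 : ℝ) 1)
      (volume.prod volume) := by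
    exact hc.continuousOn.integrableOn_compact (isCompact_Icc.prod isCompact_Icc)
  have := MeasureTheory.setIntegral_prod (μ := (volume : Measure ℝ)) (ν := (volume : Measure ℝ))
    (fun q : ℝ × ℝ => F ⟨q.1, q.2⟩) hi
  rw [Measure.volume_eq_prod, this]
  rw [intervalIntegral.integral_of_le zero_le_one, ← integral_Icc_eq_integral_Ioc]
  apply setIntegral_congr_fun measurableSet_Icc
  intro x _
  simp only
  rw [intervalIntegral.integral_of_le zero_le_one, ← integral_Icc_eq_integral_Ioc]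

theorem Qint_yx {E : Type*} [NormedAddCommGroup E] [NormedSpace ℝ E] [CompleteSpace E]
    (F : ℂ → E) (hF : Continuous F) :
    ∫ z in Q, F z = ∫ y in (0 : ℝ)..1, ∫ x in (0 : ℝ)..1, F ⟨x, y⟩ := by
  rw [Qint_xy F hF]
  have hc : Continuous (fun q : ℝ × ℝ => F ⟨q.1, q.2⟩) := hF.comp cont_mk
  apply intervalIntegral_intervalIntegral_swap (F := fun x y => F ⟨x, y⟩)
  have hi : IntegrableOn (fun q : ℝ × ℝ => F ⟨q.1, q.2⟩) (Icc (0 : ℝ) 1 ×ˢ Icc (0 : ℝ) 1) :=
    hc.continuousOn.integrableOn_compact (isCompact_Icc.prod isCompact_Icc)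
  refine hi.mono_set ?_
  rw [uIoc_of_le zero_le_one]
  exact Set.prod_mono Ioc_subset_Icc_self Ioc_subset_Icc_self

theorem volQ : volume Q = 1 := by
  rw [Q_eq, Complex.volume_preserving_equiv_real_prod.measure_preimage
    (measurableSet_Icc.prod measurableSet_Icc).nullMeasurableSet, Measure.volume_eq_prod,
    Measure.prod_prod]
  simp

theorem trans {E : Type*} [NormedAddCommGroup E] [NormedSpace ℝ E] [CompleteSpace E]
    (F : ℂ → E) (hF : Continuous F) (hP : Per F) (w : ℂ) :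
    ∫ z in Q, F (z + w) = ∫ z in Q, F z := by
  have hFw : Continuous (fun z => F (z + w)) := hF.comp (continuous_id.add continuous_const)
  rw [Qint_xy _ hFw, Qint_xy F hF]
  have hadd : ∀ x y : ℝ, (⟨x, y⟩ : ℂ) + w = ⟨x + w.re, y + w.im⟩ := by
    intro x y
    apply Complex.ext <;> simp
  have h1 : ∀ x : ℝ, ∫ y in (0 : ℝ)..1, F (⟨x, y⟩ + w) = ∫ y in (0 : ℝ)..1, F ⟨x + w.re, y⟩ := by
    intro x
    simp only [hadd]
    rw [intervalIntegral.integral_comp_add_right (fun y => F ⟨x + w.re, y⟩) w.im]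
    have hper : Function.Periodic (fun y : ℝ => F ⟨x + w.re, y⟩) 1 := by
      intro y
      have h := (hP ⟨x + w.re, y⟩).2
      have h2 : (⟨x + w.re, y + 1⟩ : ℂ) = ⟨x + w.re, y⟩ + I := by
        apply Complex.ext <;> simp
      simp only [h2, h]
    have := hper.intervalIntegral_add_eq w.im 0
    rw [zero_add] at this
    rw [zero_add, add_comm 1 w.im, this]
  simp only [h1]
  rw [intervalIntegral.integral_comp_add_right (fun x => ∫ y in (0 : ℝ)..1, F ⟨x, y⟩) w.re]
  have hper : Function.Periodic (fun x : ℝ => ∫ y in (0 : ℝ)..1, F ⟨x, y⟩) 1 := by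
    intro x
    apply intervalIntegral.integral_congr
    intro y _
    have h := (hP ⟨x, y⟩).1
    have h2 : (⟨x + 1, y⟩ : ℂ) = ⟨x, y⟩ + 1 := by
      apply Complex.ext <;> simp
    simp only [h2, h]
  have := hper.intervalIntegral_add_eq w.re 0
  rw [zero_add] at this
  rw [zero_add, add_comm 1 w.re, this]

theorem dx_int (F : ℂ → ℂ) (hF : ContDiff ℝ 1 F) (hP : Per F) : ∫ z in Q, dx F z = 0 := by
  have hc : Continuous (fun z => dx F z) :=
    (hF.continuous_fderiv one_ne_zero).clm_apply continuous_const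
  rw [Qint_yx _ hc]
  have h1 : ∀ y : ℝ, ∫ x in (0 : ℝ)..1, dx F ⟨x, y⟩ = 0 := by
    intro y
    have hd : ∀ x : ℝ, HasDerivAt (fun x : ℝ => F ⟨x, y⟩) (dx F ⟨x, y⟩) x := by
      intro x
      have h2 : HasDerivAt (fun x : ℝ => (⟨x, y⟩ : ℂ)) 1 x := by
        have h3 : (fun x : ℝ => (⟨x, y⟩ : ℂ)) = fun x : ℝ => ((x : ℝ) : ℂ) + ((y : ℝ) : ℂ) * I := by
          funext x
          apply Complex.ext <;> simp
        rw [h3]
        exact (Complex.ofRealCLM.hasDerivAt (x := x)).add_const _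
      exact ((hF.differentiable one_ne_zero ⟨x, y⟩).hasFDerivAt).comp_hasDerivAt x h2
    have hcx : Continuous (fun x : ℝ => dx F ⟨x, y⟩) :=
      hc.comp (cont_mk.comp (continuous_id.prodMk continuous_const))
    rw [intervalIntegral.integral_eq_sub_of_hasDerivAt (fun x _ => hd x)
      (hcx.intervalIntegrable _ _)]
    have h := (hP ⟨0, y⟩).1
    have h2 : (⟨0, y⟩ : ℂ) + 1 = ⟨1, y⟩ := by
      apply Complex.ext <;> simp
    rw [h2] at h
    rw [h, sub_self]
  simp only [h1, intervalIntegral.integral_zero]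

theorem dy_int (F : ℂ → ℂ) (hF : ContDiff ℝ 1 F) (hP : Per F) : ∫ z in Q, dy F z = 0 := by
  have hc : Continuous (fun z => dy F z) :=
    (hF.continuous_fderiv one_ne_zero).clm_apply continuous_const
  rw [Qint_xy _ hc]
  have h1 : ∀ x : ℝ, ∫ y in (0 : ℝ)..1, dy F ⟨x, y⟩ = 0 := by
    intro x
    have hd : ∀ y : ℝ, HasDerivAt (fun y : ℝ => F ⟨x, y⟩) (dy F ⟨x, y⟩) y := by
      intro y
      have h2 : HasDerivAt (fun y : ℝ => (⟨x, y⟩ : ℂ)) I y := by
        have h3 : (fun y : ℝ => (⟨x, y⟩ : ℂ)) = fun y : ℝ => ((x : ℝ) : ℂ) + ((y : ℝ) : ℂ) * I := by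
          funext y
          apply Complex.ext <;> simp
        rw [h3]
        have h4 := ((Complex.ofRealCLM.hasDerivAt (x := y)).mul_const I).const_add ((x : ℝ) : ℂ)
        simpa using h4
      exact ((hF.differentiable one_ne_zero ⟨x, y⟩).hasFDerivAt).comp_hasDerivAt y h2
    have hcy : Continuous (fun y : ℝ => dy F ⟨x, y⟩) :=
      hc.comp (cont_mk.comp (continuous_const.prodMk continuous_id))
    rw [intervalIntegral.integral_eq_sub_of_hasDerivAt (fun y _ => hd y)
      (hcy.intervalIntegrable _ _)]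
    have h := (hP ⟨x, 0⟩).2
    have h2 : (⟨x, 0⟩ : ℂ) + I = ⟨x, 1⟩ := by
      apply Complex.ext <;> simp
    rw [h2] at h
    rw [h, sub_self]
  simp only [h1, intervalIntegral.integral_zero]

theorem INT : S_INT :=
  ⟨dx_int, dy_int, fun F hF hP w => trans F hF hP w, fun F hF hP w => trans F hF hP w, volQ⟩

end Pool.Agent.Helper85.IW
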